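import Pool.Agent.Q60.MU.Fields
import Pool.Agent.W5h77.MB.Cyc

/-!
# Definitions for the reduction to CM fields and fields with a real embedding
-/

set_option autoImplicit false

namespace Pool.Agent.J4.H53.IW

open Pool.Agent.Q60.MU NumberField

/-- The automorphisms of `E`. -/
def Auts (E : IntermediateField ℚ Qb) : Type := E ≃ₐ[ℚ] E

/-- The identity. -/
noncomputable def Auts.id {E : IntermediateField ℚ Qb} : Auts E := AlgEquiv.refl

/-- The composition of two automorphisms. -/
noncomputable def Auts.comp {E : IntermediateField ℚ Qb} (g h : Auts E) : Auts E := AlgEquiv.trans h g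

/-- The automorphisms of `E` act, by automorphisms of the group, freely on the nonzero elements of a
finite abelian group `V ≠ 0` with `p V = 0`. -/
def FreeAut (p : ℕ) (E : IntermediateField ℚ Qb) : Prop :=
  ∃ (V : Type) (_ : AddCommGroup V) (ρ : Auts E → V →+ V), Finite V ∧ Nontrivial V ∧
    (∀ v : V, p • v = 0) ∧ (∀ v, ρ Auts.id v = v) ∧ (∀ g h v, ρ (g.comp h) v = ρ g (ρ h v)) ∧
    ∀ (g : Auts E) (v : V), v ≠ 0 → ρ g v = v → g = Auts.id

/-- `E` has a real embedding. -/
def HasReal (E : IntermediateField ℚ Qb) : Prop := ∃ φ : E →+* ℂ, ComplexEmbedding.IsReal φ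

/-- The fields to which the conjecture is reduced. -/
def Special (p : ℕ) (E : IntermediateField ℚ Qb) : Prop :=
  FreeAut p E ∧ ((IsCMField E ∧ ¬ p ∣ Module.finrank ℚ E) ∨ HasReal E)

/-- `E` is a finite extension of `ℚ`. -/
def IsFin (E : IntermediateField ℚ Qb) : Prop := FiniteDimensional ℚ E

/-- `μ = 0` for the cyclotomic `ℤ_p`-extension of `F` (`R` is the sequence of the layers of the
cyclotomic `ℤ_p`-extension of `ℚ`). -/
def Vanishes (p : ℕ) (R : ℕ → IntermediateField ℚ Qb) (F : IntermediateField ℚ Qb) : Prop :=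
  Pool.Agent.Q60.MU.MuZero p R F

/-- `p` does not divide the number of automorphisms of `E`, and commutative groups of automorphisms
are cyclic. -/
def AutFacts (p : ℕ) (E : IntermediateField ℚ Qb) : Prop :=
  ¬ p ∣ Nat.card (Auts E) ∧
    ∀ (A : Type) [CommGroup A] (f : A → Auts E), Function.Injective f →
      (∀ a b, f (a * b) = (f a).comp (f b)) → IsCyclic A

end Pool.Agent.J4.H53.IW
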