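import Pool.Agent.J4.H53.IW.FinDec
import Pool.Agent.J4.H53.IW.Defs

/-!
# Vector fields: complex conjugation and automorphisms
-/

set_option autoImplicit false

namespace Pool.Agent.J4.H53.IW

open IntermediateField Module Pool.Agent.Q60.MU Pool.Agent.W5h77.MB NumberField
open NumberField.ComplexEmbedding
open scoped Pointwise ComplexConjugate

open InfinitePlace in
/-- A number field with a nontrivial automorphism that induces complex conjugation under all
embeddings is a CM field. -/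
theorem isCM_of_conj (K : Type) [Field K] [NumberField K] {σ : K ≃ₐ[ℚ] K} (hσ1 : σ ≠ 1)
    (hσ : ∀ φ : K →+* ℂ, IsConj φ σ) : IsCMField K := by
  have hnr : ∀ φ : K →+* ℂ, ¬ IsReal φ := fun φ => (isConj_ne_one_iff (hσ φ)).1 hσ1
  have htc : IsTotallyComplex K := ⟨fun w => by
    rw [← not_isReal_iff_isComplex, ← mk_embedding w, isReal_mk_iff]
    exact hnr _⟩
  let φ : K →+* ℂ := Classical.choice (inferInstance : Nonempty _)
  have hσ' : Nat.card (Subgroup.zpowers σ) = 2 := by
    rw [Nat.card_zpowers, orderOf_isConj_two_of_ne_one (hσ φ)]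
    exact hσ1
  have : Finite (Subgroup.zpowers σ) := Nat.finite_of_card_ne_zero (by positivity)
  let L : IntermediateField ℚ K := IntermediateField.fixedField (Subgroup.zpowers σ)
  have hL : ∀ x : L, σ (x : K) = x := fun x =>
    (IntermediateField.mem_fixedField_iff _ _).1 x.2 σ (Subgroup.mem_zpowers σ)
  have : IsTotallyReal L := ⟨fun w ↦ by
    obtain ⟨W, rfl⟩ := w.comap_surjective (K := K)
    dsimp only
    rw [← mk_embedding W, comap_mk, isReal_mk_iff]
    ext x
    have h1 := (hσ W.embedding).eq (x : K)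
    rw [hL x] at h1
    exact h1.symm⟩
  have : Algebra.IsQuadraticExtension L K := ⟨by
    rw [IntermediateField.finrank_fixedField_eq_card, hσ']⟩
  exact IsCMField.ofCMExtension L K

/-- Every embedding of a subfield is a restriction of a conjugate of `ι`. -/
theorem extend_emb (ι : Qb →+* ℂ) {E : IntermediateField ℚ Qb} (φ : E →+* ℂ) :
    ∃ g : Gal(Qb/ℚ), ∀ x : E, φ x = ι (g x) := by
  let _ : Algebra E ℂ := φ.toAlgebra
  have halg : Algebra.IsAlgebraic E Qb := Algebra.IsAlgebraic.tower_top (K := ℚ) E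
  let ψ : Qb →ₐ[E] ℂ := IsAlgClosed.lift
  have hψ : ∀ x : E, ψ (x : Qb) = φ x := fun x => ψ.commutes x
  obtain ⟨σ, hσ⟩ := exists_comp_symm_eq_of_comp_eq (k := ℚ) ι (ψ : Qb →+* ℂ) (by ext; simp)
  refine ⟨σ.symm, fun x => ?_⟩
  rw [← hψ]
  have := congrArg (fun f : Qb →+* ℂ => f (x : Qb)) hσ
  exact this.symm

section Vec

variable {p : ℕ} [Fact p.Prime] {S : Type} [AddCommGroup S] [Module (ZMod p) S]
  [Module.Finite (ZMod p) S] {τ : Representation (ZMod p) Gal(Qb/ℚ) S}

omit [Module.Finite (ZMod p) S] in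
theorem mem_stab {v : S} {g : Gal(Qb/ℚ)} : g ∈ stab τ v ↔ τ g v = v := Iff.rfl

/-- A vector with a maximal stabilizer above a given one. -/
theorem exists_maximal {v₀ : S} (hv₀ : v₀ ≠ 0) : ∃ v : S, v ≠ 0 ∧ stab τ v₀ ≤ stab τ v ∧
    ∀ w : S, w ≠ 0 → stab τ v ≤ stab τ w → stab τ w = stab τ v := by
  have hfS : Finite S := Module.finite_of_finite (ZMod p)
  have hfin : ({H | ∃ v : S, v ≠ 0 ∧ stab τ v = H} : Set (Subgroup Gal(Qb/ℚ))).Finite := by
    refine (Set.finite_range (fun v : S => stab τ v)).subset ?_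
    rintro H ⟨v, -, rfl⟩
    exact ⟨v, rfl⟩
  obtain ⟨H, hH1, ⟨v, hv, rfl⟩, hmax⟩ := hfin.exists_le_maximal ⟨v₀, hv₀, rfl⟩
  exact ⟨v, hv, hH1, fun w hw hle => le_antisymm (hmax ⟨w, hw, rfl⟩ hle) hle⟩

/-- The automorphisms of `E` act freely on the nonzero vectors of a representation over `𝔽_p`. -/
def FreeAutR (p : ℕ) (E : IntermediateField ℚ Qb) : Prop :=
  ∃ (V : Type) (_ : AddCommGroup V) (_ : Module (ZMod p) V) (_ : Module.Finite (ZMod p) V)
    (ρ : Representation (ZMod p) (E ≃ₐ[ℚ] E) V), Nontrivial V ∧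
      ∀ (g : E ≃ₐ[ℚ] E) (v : V), v ≠ 0 → ρ g v = v → g = 1

theorem freeAut_of {p : ℕ} [Fact p.Prime] {E : IntermediateField ℚ Qb} (h : FreeAutR p E) :
    FreeAut p E := by
  obtain ⟨V, iV, _, _, ρ, hnt, hfree⟩ := h
  refine ⟨V, iV, fun g => (ρ g).toAddMonoidHom, Module.finite_of_finite (ZMod p), hnt,
    fun v => ?_, fun v => ?_, fun g h v => ?_, fun g v hv hg => hfree g v hv hg⟩
  · rw [← Nat.cast_smul_eq_nsmul (ZMod p), ZMod.natCast_self, zero_smul]
  · show ρ (1 : E ≃ₐ[ℚ] E) v = v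
    rw [map_one]
    rfl
  · change E ≃ₐ[ℚ] E at g h
    show ρ (g * h) v = ρ g (ρ h v)
    rw [map_mul]
    rfl

theorem toRep {p : ℕ} {V G : Type} [AddCommGroup V] [Module (ZMod p) V] [Group G]
    (ρ : G → V →+ V) (h1 : ∀ v, ρ 1 v = v) (h2 : ∀ g h v, ρ (g * h) v = ρ g (ρ h v)) :
    ∃ ρ' : Representation (ZMod p) G V, ∀ g v, ρ' g v = ρ g v := by
  have hsm : ∀ (f : V →+ V) (c : ZMod p) (v : V), f (c • v) = c • f v := fun f c v =>
    ZMod.map_smul f c v
  refine ⟨{ toFun := fun g =>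
              { toFun := ρ g
                map_add' := fun a b => map_add (ρ g) a b
                map_smul' := fun c v => hsm (ρ g) c v }
            map_one' := ?_
            map_mul' := fun g h => ?_ }, fun g v => rfl⟩
  · ext v
    exact h1 v
  · ext v
    exact h2 g h v

theorem freeAutR_of {p : ℕ} [Fact p.Prime] {E : IntermediateField ℚ Qb} (h : FreeAut p E) :
    FreeAutR p E := by
  obtain ⟨V, iV, ρ, hf, hnt, hp, h1, h2, hfree⟩ := h
  let iM : Module (ZMod p) V := AddCommGroup.zmodModule hp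
  have hfin : Module.Finite (ZMod p) V := Module.Finite.of_finite
  obtain ⟨ρ', hρ'⟩ := toRep (p := p) (G := E ≃ₐ[ℚ] E) ρ h1 h2
  exact ⟨V, iV, iM, hfin, ρ', hnt, fun g v hv hg => hfree g v hv ((hρ' g v).symm.trans hg)⟩

theorem lift_apply {E : IntermediateField ℚ Qb} (α : E ≃ₐ[ℚ] E) (x : E) :
    (α.liftNormal Qb) (x : Qb) = (α x : Qb) := AlgEquiv.liftNormal_commutes α Qb x

theorem conj_mem {E : IntermediateField ℚ Qb} {g h : Gal(Qb/ℚ)} (hg : ∀ x ∈ E, g x ∈ E)
    (hh : h ∈ E.fixingSubgroup) : g⁻¹ * h * g ∈ E.fixingSubgroup := by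
  rw [IntermediateField.mem_fixingSubgroup_iff] at hh ⊢
  intro x hx
  show g⁻¹ (h (g x)) = x
  rw [hh _ (hg x hx)]
  exact AlgEquiv.symm_apply_apply g x

theorem lift_mem {E : IntermediateField ℚ Qb} (α : E ≃ₐ[ℚ] E) : ∀ x ∈ E, α.liftNormal Qb x ∈ E := by
  intro x hx
  have h := lift_apply α ⟨x, hx⟩
  rw [h]
  exact (α ⟨x, hx⟩).2

theorem freeAut {E : IntermediateField ℚ Qb} {v : S} (hv : v ≠ 0)
    (hE : E.fixingSubgroup = stab τ v)
    (hmax : ∀ w : S, w ≠ 0 → stab τ v ≤ stab τ w → stab τ w = stab τ v) : FreeAut p E := by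
  apply freeAut_of
  let U : Submodule (ZMod p) S :=
    { carrier := {w | ∀ h ∈ E.fixingSubgroup, τ h w = w}
      add_mem' := by
        intro a b ha hb h hh
        rw [map_add, ha h hh, hb h hh]
      zero_mem' := by
        intro h _
        rw [map_zero]
      smul_mem' := by
        intro c a ha h hh
        rw [map_smul, ha h hh] }
  have hU : ∀ w, w ∈ U ↔ ∀ h ∈ E.fixingSubgroup, τ h w = w := fun w => Iff.rfl
  have hmaps : ∀ α : E ≃ₐ[ℚ] E, ∀ w ∈ U, τ (α.liftNormal Qb) w ∈ U := by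
    intro α w hw h hh
    set g := α.liftNormal Qb with hg
    have h1 := hw _ (conj_mem (lift_mem α) hh)
    rw [← Module.End.mul_apply, ← map_mul]
    have h2 : h * g = g * (g⁻¹ * h * g) := by group
    rw [h2, map_mul, Module.End.mul_apply, h1]
  have hagree : ∀ g₁ g₂ : Gal(Qb/ℚ), (∀ x ∈ E, g₁ x = g₂ x) → ∀ w ∈ U, τ g₁ w = τ g₂ w := by
    intro g₁ g₂ h w hw
    have h1 : g₂⁻¹ * g₁ ∈ E.fixingSubgroup := by
      rw [IntermediateField.mem_fixingSubgroup_iff]
      intro x hx
      show g₂⁻¹ (g₁ x) = x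
      rw [h x hx]
      exact AlgEquiv.symm_apply_apply g₂ x
    have h2 : g₁ = g₂ * (g₂⁻¹ * g₁) := by group
    rw [h2, map_mul, Module.End.mul_apply, hw _ h1]
  let ρ : Representation (ZMod p) (E ≃ₐ[ℚ] E) U :=
    { toFun := fun α => (τ (α.liftNormal Qb)).restrict (hmaps α)
      map_one' := by
        apply LinearMap.ext
        intro w
        apply Subtype.ext
        show τ _ (w : S) = w
        have h1 := hagree ((1 : E ≃ₐ[ℚ] E).liftNormal Qb) 1 (by
          intro x hx
          exact lift_apply 1 ⟨x, hx⟩) w w.2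
        rw [h1, map_one]
        rfl
      map_mul' := by
        intro α β
        apply LinearMap.ext
        intro w
        apply Subtype.ext
        show τ _ (w : S) = τ _ (τ _ (w : S))
        have h1 := hagree ((α * β).liftNormal Qb) (α.liftNormal Qb * β.liftNormal Qb) (by
          intro x hx
          have h2 := lift_apply (α * β) ⟨x, hx⟩
          have h3 := lift_apply β ⟨x, hx⟩
          have h4 := lift_apply α (β ⟨x, hx⟩)
          show _ = α.liftNormal Qb (β.liftNormal Qb x)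
          rw [h2, h3, h4]
          rfl) w w.2
        exact h1.trans (by rw [map_mul]; rfl) }
  have hvU : v ∈ U := by
    intro h hh
    rw [hE] at hh
    exact hh
  refine ⟨U, inferInstance, inferInstance, inferInstance, ρ,
    ⟨⟨v, hvU⟩, 0, fun h => hv (congrArg Subtype.val h)⟩, ?_⟩
  intro α w hw hαw
  have hw0 : (w : S) ≠ 0 := fun h => hw (Subtype.ext h)
  have h1 : stab τ v ≤ stab τ (w : S) := by
    rw [← hE]
    exact fun h hh => w.2 h hh
  have h2 := hmax w hw0 h1
  have h3 : α.liftNormal Qb ∈ stab τ (w : S) := congrArg Subtype.val hαw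
  rw [h2, ← hE, IntermediateField.mem_fixingSubgroup_iff] at h3
  refine AlgEquiv.ext fun x => Subtype.ext ?_
  have h4 := lift_apply α x
  rw [← h4]
  exact h3 x x.2

end Vec

end Pool.Agent.J4.H53.IW
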