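import Pool.Agent.W5h77.MB.Mu

/-!
# Finite decomposition in the cyclotomic `ℤ_p`-extension of `ℚ`
-/

set_option autoImplicit false

namespace Pool.Agent.J4.H53.IW

open IntermediateField Module Pool.Agent.Q60.MU Pool.Agent.W5h77.MB NumberField
open scoped Pointwise

/-- `p ^ N ∣ ℓ ^ f - 1` forces `f` to be large. -/
theorem order_large {p ℓ : ℕ} (hp : p.Prime) (hp2 : p ≠ 2) (hℓ : 2 ≤ ℓ) (hpl : ¬ p ∣ ℓ) :
    ∃ w : ℕ, ∀ N f : ℕ, 0 < f → p ^ N ∣ ℓ ^ f - 1 → p ^ N ≤ p ^ w * f := by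
  have hpf : Fact p.Prime := ⟨hp⟩
  set a := ℓ ^ (p - 1) with ha
  have hp1 : 1 ≤ p - 1 := by have := hp.two_le; omega
  have ha1 : 1 < a := Nat.one_lt_pow (by omega) (by omega)
  have hpa : ¬ p ∣ a := fun h => hpl (hp.dvd_of_dvd_pow h)
  have hdvd : p ∣ a - 1 := by
    have h1 : (ℓ : ZMod p) ≠ 0 := by
      rw [Ne, ZMod.natCast_eq_zero_iff]
      exact hpl
    have h2 := ZMod.pow_card_sub_one_eq_one h1
    rw [← ZMod.natCast_eq_zero_iff, Nat.cast_sub ha1.le, ha, Nat.cast_pow, h2, Nat.cast_one,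
      sub_self]
  refine ⟨padicValNat p (a - 1), fun N f hf h => ?_⟩
  have h1 : p ^ N ∣ a ^ f - 1 := by
    have h2 : ℓ ^ f - 1 ∣ (ℓ ^ f) ^ (p - 1) - 1 := by
      simpa using Nat.sub_dvd_pow_sub_pow (ℓ ^ f) 1 (p - 1)
    rw [ha, ← pow_mul, mul_comm, pow_mul]
    exact h.trans h2
  have h3 : padicValNat p (a ^ f - 1 ^ f) = padicValNat p (a - 1) + padicValNat p f :=
    padicValNat.pow_sub_pow (hp.odd_of_ne_two hp2) ha1 hdvd hpa hf.ne'
  rw [one_pow] at h3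
  have h4 : a ^ f - 1 ≠ 0 := by
    have := Nat.one_lt_pow hf.ne' ha1
    omega
  have h5 : N ≤ padicValNat p (a ^ f - 1) := (padicValNat_dvd_iff_le h4).1 h1
  rw [h3] at h5
  calc p ^ N ≤ p ^ (padicValNat p (a - 1) + padicValNat p f) := Nat.pow_le_pow_right hp.pos h5
    _ = p ^ padicValNat p (a - 1) * p ^ padicValNat p f := pow_add _ _ _
    _ ≤ p ^ padicValNat p (a - 1) * f := Nat.mul_le_mul_left _
        (Nat.le_of_dvd hf pow_padicValNat_dvd)

/-- The field generated by the roots of unity of order dividing `p ^ (N + 1)`. -/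
noncomputable def KK (p N : ℕ) : IntermediateField ℚ Qb := adjoin ℚ {z : Qb | z ^ p ^ N = 1}

theorem cyc {p : ℕ} (hp : p.Prime) (N : ℕ) : IsCyclotomicExtension {p ^ N} ℚ (KK p N) := by
  have hne : NeZero (p ^ N) := ⟨(pow_pos hp.pos N).ne'⟩
  have h1 : ∀ n ∈ ({p ^ N} : Set ℕ), n ≠ 0 → ∃ r : Qb, IsPrimitiveRoot r n := by
    intro n hn h0
    have : NeZero (n : Qb) := ⟨by exact_mod_cast h0⟩
    exact HasEnoughRootsOfUnity.exists_primitiveRoot Qb n
  have h2 := IntermediateField.isCyclotomicExtension_adjoin_of_exists_isPrimitiveRoot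
    ({p ^ N} : Set ℕ) ℚ Qb h1
  have h3 : {b : Qb | ∃ n ∈ ({p ^ N} : Set ℕ), n ≠ 0 ∧ b ^ n = 1} = {z : Qb | z ^ p ^ N = 1} := by
    ext b
    simp [hp.ne_zero]
  rw [h3] at h2
  exact h2

/-- The number of primes above `ℓ` in the `p ^ N`-th cyclotomic field is bounded. -/
theorem ncard_le {p ℓ : ℕ} (hp : p.Prime) (hp2 : p ≠ 2) (hℓ : ℓ.Prime) :
    ∃ t : ℕ, ∀ N : ℕ, ((Ideal.span {(ℓ : ℤ)}).primesOver (𝓞 (KK p N))).ncard ≤ t := by
  have hpf : Fact p.Prime := ⟨hp⟩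
  have hlf : Fact ℓ.Prime := ⟨hℓ⟩
  by_cases hpl : p = ℓ
  · subst hpl
    have h0 := fun N => cyc hp N
    have hnf : ∀ N, NumberField (KK p N) := fun N =>
      haveI := h0 N
      haveI : NeZero (p ^ N) := ⟨(pow_pos hp.pos N).ne'⟩
      IsCyclotomicExtension.numberField {p ^ N} ℚ _
    refine ⟨max 1 ((Ideal.span {(p : ℤ)}).primesOver (𝓞 (KK p 0))).ncard, fun N => ?_⟩
    rcases N with _ | N
    · exact le_max_right _ _
    · have := h0 (N + 1)
      have := hnf (N + 1)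
      rw [IsCyclotomicExtension.Rat.ncard_primesOver_of_prime_pow p N (KK p (N + 1))]
      exact le_max_left _ _
  · have hnd : ¬ p ∣ ℓ := fun h => hpl ((Nat.prime_dvd_prime_iff_eq hp hℓ).1 h)
    obtain ⟨w, hw⟩ := order_large hp hp2 hℓ.two_le hnd
    refine ⟨p ^ w, fun N => ?_⟩
    have hcy := cyc hp N
    have hne : NeZero (p ^ N) := ⟨(pow_pos hp.pos N).ne'⟩
    have hnf : NumberField (KK p N) := IsCyclotomicExtension.numberField {p ^ N} ℚ _
    have hgal : IsGalois ℚ (KK p N) := IsCyclotomicExtension.isGalois {p ^ N} ℚ _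
    have hld : ¬ ℓ ∣ p ^ N := fun h =>
      hpl ((Nat.prime_dvd_prime_iff_eq hℓ hp).1 (hℓ.dvd_of_dvd_pow h)).symm
    have hmain := Ideal.ncard_primesOver_mul_ramificationIdxIn_mul_inertiaDegIn
      (Ideal.span {(ℓ : ℤ)}) (𝓞 (KK p N)) Gal((KK p N)/ℚ)
    rw [IsCyclotomicExtension.Rat.ramificationIdxIn_eq_of_not_dvd ℓ (KK p N) hld,
      IsCyclotomicExtension.Rat.inertiaDegIn_eq_of_not_dvd ℓ (KK p N) hld, one_mul,
      IsGaloisGroup.card_eq_finrank Gal((KK p N)/ℚ) ℚ (KK p N),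
      IsCyclotomicExtension.finrank (n := p ^ N) (KK p N)
        (Polynomial.cyclotomic.irreducible_rat (pow_pos hp.pos N))] at hmain
    have hcop : ℓ.Coprime (p ^ N) := (Nat.Prime.coprime_iff_not_dvd hℓ).2 hld
    have hpos : 0 < orderOf (ℓ : ZMod (p ^ N)) := by
      rw [orderOf_pos_iff]
      exact (Units.coeHom (ZMod (p ^ N))).isOfFinOrder
        (isOfFinOrder_of_finite (ZMod.unitOfCoprime ℓ hcop))
    have hdv : p ^ N ∣ ℓ ^ orderOf (ℓ : ZMod (p ^ N)) - 1 := by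
      rw [← ZMod.natCast_eq_zero_iff, Nat.cast_sub (Nat.one_le_pow _ _ hℓ.pos), Nat.cast_pow,
        pow_orderOf_eq_one, Nat.cast_one, sub_self]
    have h1 := hw N _ hpos hdv
    have h2 : Nat.totient (p ^ N) ≤ p ^ N := Nat.totient_le _
    rw [← hmain] at h2
    exact Nat.le_of_mul_le_mul_right (h2.trans h1) hpos

end Pool.Agent.J4.H53.IW
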