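import Pool.Agent.J4.H53.IW.Dec

/-!
# Finite decomposition in the cyclotomic `ℤ_p`-extension of `ℚ`
-/

set_option autoImplicit false

namespace Pool.Agent.J4.H53.IW

open IntermediateField Module Pool.Agent.Q60.MU Pool.Agent.W5h77.MB NumberField
open Pool.Agent.H639R3 (cent mem_cent cent_isPrime eq_of_cent_eq comap_val_lt_one exists_aut)
open scoped Pointwise

theorem finDec {p : ℕ} (hp : p.Prime) (hp2 : p ≠ 2) {R : ℕ → IntermediateField ℚ Qb}
    (hR : ∀ m, IsLayer p m (R m)) : FinDec R := by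
  classical
  intro ℓ hℓ
  obtain ⟨t, ht⟩ := ncard_le hp hp2 hℓ
  refine ⟨t, fun m => ?_⟩
  obtain ⟨-, N, hN⟩ := hR m
  have hcy := cyc hp N
  have hne : NeZero (p ^ N) := ⟨(pow_pos hp.pos N).ne'⟩
  have hnf : NumberField (KK p N) := IsCyclotomicExtension.numberField {p ^ N} ℚ _
  have htN := ht N
  have hNK : R m ≤ KK p N := hN
  generalize KK p N = K at *
  have hint : ∀ (C : ValuationSubring Qb) (a : 𝓞 K), algebraMap (𝓞 K) K a ∈ C.comap (algebraMap K Qb) := by
    intro C a
    rw [ValuationSubring.mem_comap]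
    apply integral_mem C
    exact (RingOfIntegers.isIntegral_coe a).map ((algebraMap K Qb).toIntAlgHom)
  have hneT : ∀ C : ValuationSubring Qb, (ℓ : Qb) ∈ C.nonunits → C.comap (algebraMap K Qb) ≠ ⊤ := by
    intro C hC htop
    have h2 : ((ℓ : K))⁻¹ ∈ C.comap (algebraMap K Qb) := by rw [htop]; trivial
    rw [ValuationSubring.mem_comap, map_inv₀, map_natCast] at h2
    rw [ValuationSubring.mem_nonunits_iff_or] at hC
    rcases hC with h3 | h3
    · exact hℓ.ne_zero (by exact_mod_cast h3)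
    · exact h3 h2
  -- the centre
  let cen : ValuationSubring Qb → Ideal (𝓞 K) := fun C => cent (C.comap (algebraMap K Qb)) (hint C)
  have hcen : ∀ C : ValuationSubring Qb, (ℓ : Qb) ∈ C.nonunits →
      cen C ∈ (Ideal.span {(ℓ : ℤ)}).primesOver (𝓞 K) := by
    intro C hC
    refine ⟨cent_isPrime _ _, ⟨?_⟩⟩
    have hmax : (Ideal.span {(ℓ : ℤ)}).IsMaximal :=
      PrincipalIdealRing.isMaximal_of_irreducible (Nat.prime_iff_prime_int.1 hℓ).irreducible
    have hpr : (cen C).IsPrime := cent_isPrime _ _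
    refine hmax.eq_of_le (Ideal.IsPrime.ne_top inferInstance) ?_
    rw [Ideal.span_singleton_le_iff_mem, Ideal.under_def, Ideal.mem_comap]
    show _ ∈ cent _ _
    rw [mem_cent, comap_val_lt_one]
    have h1 := (ValuationSubring.mem_nonunits_iff C).1 hC
    convert h1 using 2
    simp
  have hconj : ∀ A B : ValuationSubring Qb, (ℓ : Qb) ∈ A.nonunits → (ℓ : Qb) ∈ B.nonunits →
      cen A = cen B → ∃ σ ∈ (R m).fixingSubgroup, A = σ • B := by
    intro A B hA hB h
    have h2 : A.comap (algebraMap K Qb) = B.comap (algebraMap K Qb) :=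
      eq_of_cent_eq _ _ (hint A) (hint B) (hneT A hA) (hneT B hB) h
    obtain ⟨σ, hσ⟩ := exists_aut (F := K) (L := Qb) (A := 𝓞 K) B A (hint B)
      (hneT B hB) h2.symm
    let τ : Gal(Qb/ℚ) := σ.restrictScalars ℚ
    have hτM : τ ∈ K.fixingSubgroup := by
      rw [IntermediateField.mem_fixingSubgroup_iff]
      intro x hx
      exact σ.commutes (⟨x, hx⟩ : K)
    refine ⟨τ⁻¹, inv_mem (fixingSubgroup_le hNK hτM), ?_⟩
    ext a
    rw [ValuationSubring.mem_pointwise_smul_iff_inv_smul_mem, inv_inv, hσ]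
    rfl
  have hfin : ((Ideal.span {(ℓ : ℤ)}).primesOver (𝓞 K)).Finite := by
    have h0 : (Ideal.span {(ℓ : ℤ)} : Ideal ℤ) ≠ ⊥ := by
      rw [Ne, Ideal.span_singleton_eq_bot]
      exact_mod_cast hℓ.ne_zero
    have hmax : (Ideal.span {(ℓ : ℤ)}).IsMaximal :=
      PrincipalIdealRing.isMaximal_of_irreducible (Nat.prime_iff_prime_int.1 hℓ).irreducible
    exact IsDedekindDomain.primesOver_finite _ _
  -- representatives
  let rep : Ideal (𝓞 K) → ValuationSubring Qb := fun Q =>
    if h : ∃ B : ValuationSubring Qb, (ℓ : Qb) ∈ B.nonunits ∧ cen B = Q then h.choose else ⊤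
  refine ⟨hfin.toFinset.image rep, ?_, ?_⟩
  · refine Finset.card_image_le.trans ?_
    rw [← Set.ncard_eq_toFinset_card _ hfin]
    exact htN
  · intro A hA
    have hex : ∃ B : ValuationSubring Qb, (ℓ : Qb) ∈ B.nonunits ∧ cen B = cen A := ⟨A, hA, rfl⟩
    have hrep : rep (cen A) = hex.choose := dif_pos hex
    obtain ⟨h1, h2⟩ := hex.choose_spec
    refine ⟨rep (cen A), Finset.mem_image_of_mem _ (hfin.mem_toFinset.2 (hcen A hA)), ?_⟩
    rw [hrep]
    exact hconj A _ hA h1 h2.symm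

end Pool.Agent.J4.H53.IW
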