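import Pool.Agent.J4.H53.IW.Main

/-!
# Groups acting freely on the nonzero vectors
-/

set_option autoImplicit false

namespace Pool.Agent.J4.H53.IW

open IntermediateField Module Pool.Agent.Q60.MU Pool.Agent.W5h77.MB NumberField

section

variable {p : ℕ} [Fact p.Prime] {V : Type} [AddCommGroup V] [Module (ZMod p) V]
  [Module.Finite (ZMod p) V] [Nontrivial V]

theorem cyclic_of_free {G : Type} [CommGroup G] (ρ : Representation (ZMod p) G V)
    (h : ∀ (g : G) (v : V), v ≠ 0 → ρ g v = v → g = 1) : IsCyclic G := by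
  classical
  have hfV : Finite V := Module.finite_of_finite (ZMod p)
  obtain ⟨v₁, hv₁⟩ := exists_ne (0 : V)
  have hfG : Finite G := by
    refine Finite.of_injective (fun g : G => ρ g v₁) fun g g' hgg => ?_
    have h1 : ρ (g'⁻¹ * g) v₁ = v₁ := by
      rw [map_mul, Module.End.mul_apply]
      have h2 : ρ g v₁ = ρ g' v₁ := hgg
      rw [h2, ← Module.End.mul_apply, ← map_mul, inv_mul_cancel, map_one]
      rfl
    have h2 := h _ v₁ hv₁ h1
    exact (inv_mul_eq_one.1 h2).symm
  have hfM : Finite ρ.asModule := hfV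
  have hnM : Nontrivial ρ.asModule := ‹Nontrivial V›
  obtain ⟨T, hT⟩ := IsAtomic.exists_atom (Submodule (MonoidAlgebra (ZMod p) G) ρ.asModule)
  have hTs : IsSimpleModule (MonoidAlgebra (ZMod p) G) T := isSimpleModule_iff_isAtom.2 hT
  have hTn : Nontrivial T := IsSimpleModule.nontrivial (MonoidAlgebra (ZMod p) G) T
  obtain ⟨t, ht⟩ := exists_ne (0 : T)
  have hmax := IsSimpleModule.ker_toSpanSingleton_isMaximal (MonoidAlgebra (ZMod p) G) ht
  set 𝔪 := LinearMap.ker (LinearMap.toSpanSingleton (MonoidAlgebra (ZMod p) G) T t) with h𝔪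
  have hpr : Ideal.IsPrime 𝔪 := Ideal.IsMaximal.isPrime hmax
  let f : G →* (MonoidAlgebra (ZMod p) G ⧸ 𝔪) :=
    ((Ideal.Quotient.mk 𝔪 : MonoidAlgebra (ZMod p) G →+* _) : MonoidAlgebra (ZMod p) G →* _).comp
      (MonoidAlgebra.of (ZMod p) G)
  refine isCyclic_of_injective_ringHom (f := f) ?_
  rw [injective_iff_map_eq_one]
  intro g hg
  have h1 : MonoidAlgebra.of (ZMod p) G g - 1 ∈ 𝔪 := by
    rw [← Ideal.Quotient.eq]
    exact hg
  rw [h𝔪, LinearMap.mem_ker, LinearMap.toSpanSingleton_apply, sub_smul, one_smul,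
    sub_eq_zero] at h1
  have h2 := congrArg (fun x : T => ((x : ρ.asModule))) h1
  have h3 : (MonoidAlgebra.of (ZMod p) G g) • (t : ρ.asModule) = (t : ρ.asModule) := h2
  have h4 := congrArg ρ.asModuleEquiv h3
  rw [Representation.asModuleEquiv_map_smul, Representation.asAlgebraHom_of] at h4
  refine h g (ρ.asModuleEquiv (t : ρ.asModule)) ?_ h4
  intro h0
  apply ht
  apply Subtype.ext
  exact ρ.asModuleEquiv.injective (h0.trans (map_zero _).symm)

theorem not_dvd_of_free {G : Type} [Group G] [Finite G] (ρ : Representation (ZMod p) G V)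
    (h : ∀ (g : G) (v : V), v ≠ 0 → ρ g v = v → g = 1) : ¬ p ∣ Nat.card G := by
  intro hdvd
  obtain ⟨g, hg⟩ := exists_prime_orderOf_dvd_card' p hdvd
  have hP : IsPGroup p (Subgroup.zpowers g) := by
    rw [IsPGroup.iff_card]
    exact ⟨1, by rw [Nat.card_zpowers, hg, pow_one]⟩
  obtain ⟨v, hv, hfix⟩ := exists_fixed hP
    (ρ.comp (Subgroup.zpowers g).subtype : Representation (ZMod p) (Subgroup.zpowers g) V)
  have h1 := h g v hv (hfix ⟨g, Subgroup.mem_zpowers g⟩)
  rw [h1, orderOf_one] at hg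
  exact (Fact.out : p.Prime).one_lt.ne hg

end

/-- The consequences of `FreeAut` for the group of automorphisms. -/
theorem freeAut_facts {p : ℕ} [Fact p.Prime] {E : IntermediateField ℚ Qb}
    (hE : FiniteDimensional ℚ E) (h : FreeAut p E) : AutFacts p E := by
  obtain ⟨V, _, _, _, ρ, _, hfree⟩ := freeAutR_of h
  refine ⟨not_dvd_of_free (G := E ≃ₐ[ℚ] E) ρ hfree, fun A _ f hf hmul => ?_⟩
  let f' : A →* (E ≃ₐ[ℚ] E) := MonoidHom.mk' f hmul
  refine cyclic_of_free (ρ.comp f' : Representation (ZMod p) A V) fun g v hv hg => ?_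
  exact hf ((hfree (f' g) v hv hg).trans (map_one f').symm)

/-- The local form. -/
theorem galois_iff {p : ℕ} [Fact p.Prime] (hp2 : p ≠ 2) (R : ℕ → IntermediateField ℚ Qb)
    (hR : ∀ m, IsLayer p m (R m)) (N : IntermediateField ℚ Qb) (hN : FiniteDimensional ℚ N)
    (hNn : IsGalois ℚ N) :
    Pool.Agent.Q60.MU.MuZero p R N ↔
      ∀ E ≤ N, Special p E → Pool.Agent.Q60.MU.MuZero p R E := by
  have hp : p.Prime := Fact.out
  have hRf : ∀ m, FiniteDimensional ℚ (R m) := fun m => layer_fd hp (hR m)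
  have hRn : ∀ m, IsGalois ℚ (R m) := fun m => layer_galois hp (hR m)
  have hd : FinDec R := finDec hp hp2 hR
  have hKn : N.fixingSubgroup.Normal := (InfiniteGalois.normal_iff_isGalois N).2 hNn
  have hKo := N.fixingSubgroup_isOpen
  have hKf := index_ne_zero' N
  have hDo : ∀ m, IsOpen ((R m).fixingSubgroup : Set Gal(Qb/ℚ)) := fun m => by
    have := hRf m
    exact (R m).fixingSubgroup_isOpen
  constructor
  · intro h E hE _
    have hEd : FiniteDimensional ℚ E :=
      Submodule.finiteDimensional_of_le (S₁ := Subalgebra.toSubmodule E.toSubalgebra)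
        (S₂ := Subalgebra.toSubmodule N.toSubalgebra) hE
    rw [← mu_iff hRf] at h ⊢
    exact Mu0.of_le hDo hKn (fixingSubgroup_le hE) hKo hKf h
  · intro h
    refine field_detect p R hRf hRn hd N hN hNn
      {E | E ≤ N ∧ Pool.Agent.Q60.MU.MuZero p R E} (fun E hE => hE.1) ?_ (fun E hE => hE.2)
      N le_rfl
    intro S _ _ _ τ hτ hs
    exact detect_special hp2 hN hNn (τ := τ) hτ hs fun E hE hs => ⟨hE, h E hE hs⟩

end Pool.Agent.J4.H53.IW
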