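import Pool.Agent.J4.H53.IW.Cm

/-!
# Reduction to CM fields and fields with a real embedding
-/

set_option autoImplicit false

namespace Pool.Agent.J4.H53.IW

open IntermediateField Module Pool.Agent.Q60.MU Pool.Agent.W5h77.MB NumberField
open NumberField.ComplexEmbedding
open scoped Pointwise ComplexConjugate

variable {p : ℕ} [Fact p.Prime] {S : Type} [AddCommGroup S] [Module (ZMod p) S]
  {τ : Representation (ZMod p) Gal(Qb/ℚ) S}

theorem hasReal (ι : Qb →+* ℂ) {c : Gal(Qb/ℚ)} (hc : ∀ x, ι (c x) = conj (ι x))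
    {E : IntermediateField ℚ Qb} (hcE : c ∈ E.fixingSubgroup) : HasReal E := by
  have key : ∃ φ : E →+* ℂ, IsReal φ := by
    refine ⟨ι.comp (algebraMap E Qb), ?_⟩
    ext x
    have h1 := (IntermediateField.mem_fixingSubgroup_iff _ _).1 hcE x x.2
    show conj (ι (x : Qb)) = ι (x : Qb)
    rw [← hc, h1]
  exact key

/-- If complex conjugation acts as `-1`, the fields `ℚ(v)` are CM fields. -/
theorem isCM (hp2 : p ≠ 2) (ι : Qb →+* ℂ) {c : Gal(Qb/ℚ)} (hc : ∀ x, ι (c x) = conj (ι x))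
    (hcc : c * c = 1) (hneg : ∀ w : S, τ c w = -w) {v : S} (hv : v ≠ 0)
    {E : IntermediateField ℚ Qb} [FiniteDimensional ℚ E] (hE : E.fixingSubgroup = stab τ v) :
    IsCMField E := by
  have hnf : NumberField E := ⟨⟩
  -- every element acts like its conjugate by `c`
  have hcomm : ∀ g : Gal(Qb/ℚ), ∀ w : S, τ (g⁻¹ * c⁻¹ * g * c) w = w := by
    intro g w
    have h1 : ∀ w : S, τ (c⁻¹) w = -w := by
      intro w
      have h2 : c⁻¹ = c := inv_eq_of_mul_eq_one_left hcc
      rw [h2]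
      exact hneg w
    have h3 : τ g⁻¹ (τ g w) = w := by
      rw [← Module.End.mul_apply, ← map_mul, inv_mul_cancel, map_one]
      rfl
    rw [map_mul, map_mul, map_mul, Module.End.mul_apply, Module.End.mul_apply,
      Module.End.mul_apply, hneg, map_neg, h1, neg_neg, h3]
  have hmemE : ∀ x, x ∈ E ↔ ∀ h ∈ stab τ v, h x = x := by
    intro x
    rw [← hE, ← mem_fixedField_iff, InfiniteGalois.fixedField_fixingSubgroup]
  have hcE : ∀ x ∈ E, c x ∈ E := by
    intro x hx
    rw [hmemE]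
    intro h hh
    have h1 : c⁻¹ * h * c ∈ stab τ v := by
      rw [mem_stab, map_mul, map_mul, Module.End.mul_apply, Module.End.mul_apply, hneg, map_neg,
        mem_stab.1 hh, map_neg]
      have h2 : c⁻¹ = c := inv_eq_of_mul_eq_one_left hcc
      rw [h2, hneg, neg_neg]
    have h3 := (hmemE x).1 hx _ h1
    have h4 : c ((c⁻¹ * h * c) x) = h (c x) := by
      rw [← AlgEquiv.mul_apply, ← AlgEquiv.mul_apply]
      congr 1
      group
    rw [← h4, h3]
  let f : E →ₐ[ℚ] E := ((c : Qb →ₐ[ℚ] Qb).comp E.val).codRestrict E.toSubalgebra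
    (fun x => hcE x x.2)
  have hf : ∀ x : E, (f x : Qb) = c x := fun _ => rfl
  have hff : f.comp f = AlgHom.id ℚ E := by
    ext x
    show (f (f x) : Qb) = x
    rw [hf, hf, ← AlgEquiv.mul_apply, hcc]
    rfl
  let σ : E ≃ₐ[ℚ] E := AlgEquiv.ofAlgHom f f hff hff
  have hσ : ∀ x : E, (σ x : Qb) = c x := fun _ => rfl
  apply isCM_of_conj E (σ := σ)
  · intro h
    have h1 : c ∈ E.fixingSubgroup := by
      rw [IntermediateField.mem_fixingSubgroup_iff]
      intro x hx
      have := hσ ⟨x, hx⟩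
      rw [h] at this
      exact this.symm
    rw [hE, mem_stab, hneg] at h1
    have h2 : (2 : ZMod p) • v = 0 := by
      rw [two_smul]
      nth_rewrite 1 [← h1]
      exact neg_add_cancel v
    rcases smul_eq_zero.1 h2 with h3 | h3
    · have h4 : ((2 : ℕ) : ZMod p) = 0 := by exact_mod_cast h3
      rw [ZMod.natCast_eq_zero_iff] at h4
      exact hp2 ((Nat.prime_dvd_prime_iff_eq (Fact.out) Nat.prime_two).1 h4)
    · exact hv h3
  · intro φ
    obtain ⟨g, hg⟩ := extend_emb ι φ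
    ext x
    show conj (φ x) = φ (σ x)
    rw [hg, hg, hσ, ← hc]
    congr 1
    have h1 : g⁻¹ * c⁻¹ * g * c ∈ E.fixingSubgroup := by
      rw [hE]
      exact hcomm g v
    have h2 := (IntermediateField.mem_fixingSubgroup_iff _ _).1 h1 x x.2
    have h3 : c (g ((g⁻¹ * c⁻¹ * g * c) (x : Qb))) = g (c (x : Qb)) := by
      rw [← AlgEquiv.mul_apply, ← AlgEquiv.mul_apply, ← AlgEquiv.mul_apply]
      congr 1
      group
    rw [h2] at h3
    exact h3

theorem isCM' (hp2 : p ≠ 2) (ι : Qb →+* ℂ) {c : Gal(Qb/ℚ)} (hc : ∀ x, ι (c x) = conj (ι x))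
    (hcc : c * c = 1) (hneg : ∀ w : S, τ c w = -w) {v : S} (hv : v ≠ 0)
    {E : IntermediateField ℚ Qb} (hfd : FiniteDimensional ℚ E) (hE : E.fixingSubgroup = stab τ v) :
    IsCMField E := by
  have h : IsCMField E := isCM hp2 ι hc hcc hneg hv hE
  exact h

theorem nonempty_iota : Nonempty (Qb →+* ℂ) :=
  ⟨((IsAlgClosed.lift : Qb →ₐ[ℚ] ℂ) : Qb →+* ℂ)⟩

/-- Special fields detect the simple representations. -/
theorem detect_special (hp2 : p ≠ 2) {N : IntermediateField ℚ Qb} (hN : FiniteDimensional ℚ N)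
    (hNn : IsGalois ℚ N) [Module.Finite (ZMod p) S] (hτ : ∀ g ∈ N.fixingSubgroup, ∀ x, τ g x = x)
    (hs : IsSimple τ) {𝓔 : Set (IntermediateField ℚ Qb)}
    (h𝓔 : ∀ E ≤ N, Special p E → E ∈ 𝓔) :
    ∃ E ∈ 𝓔, ∃ v : S, v ≠ 0 ∧ ∀ g ∈ E.fixingSubgroup, τ g v = v := by
  have hKn : N.fixingSubgroup.Normal := (InfiniteGalois.normal_iff_isGalois N).2 hNn
  have hKo := N.fixingSubgroup_isOpen
  have hKf := index_ne_zero' N
  have hnt : Nontrivial S := hs.1
  obtain ⟨ι⟩ := nonempty_iota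
  obtain ⟨c, hc, hcc⟩ := exists_conj ι
  -- from a vector to its field
  have key : ∀ v₀ : S, v₀ ≠ 0 → (∀ v : S, v ≠ 0 → stab τ v₀ ≤ stab τ v →
      (fixedField (stab τ v)).fixingSubgroup = stab τ v →
      FiniteDimensional ℚ (fixedField (stab τ v)) →
      ((IsCMField (fixedField (stab τ v)) ∧ ¬ p ∣ finrank ℚ (fixedField (stab τ v))) ∨
        HasReal (fixedField (stab τ v)))) →
      ∃ E ∈ 𝓔, ∃ v : S, v ≠ 0 ∧ ∀ g ∈ E.fixingSubgroup, τ g v = v := by
    intro v₀ hv₀ hgood
    obtain ⟨v, hv, hle, hmax⟩ := exists_maximal (τ := τ) hv₀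
    have hKle : N.fixingSubgroup ≤ stab τ v := fun g hg => hτ g hg v
    have hso : IsOpen (stab τ v : Set Gal(Qb/ℚ)) := Subgroup.isOpen_mono hKle hKo
    have hsf : (fixedField (stab τ v)).fixingSubgroup = stab τ v := fix_fixed hso
    have hfd : FiniteDimensional ℚ (fixedField (stab τ v)) := finite_fixed hso fun h0 => by
      have := Subgroup.index_dvd_of_le hKle
      rw [h0] at this
      exact hKf (Nat.eq_zero_of_zero_dvd this)
    refine ⟨fixedField (stab τ v), h𝓔 _ ?_ ⟨freeAut hv hsf hmax, hgood v hv hle hsf hfd⟩, v, hv, ?_⟩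
    · rw [← InfiniteGalois.fixedField_fixingSubgroup N]
      exact fixedField_antitone hKle
    · rw [hsf]
      exact fun g hg => hg
  by_cases hex : ∃ v₀ : S, v₀ ≠ 0 ∧ τ c v₀ = v₀
  · obtain ⟨v₀, hv₀, hcv⟩ := hex
    refine key v₀ hv₀ fun v hv hle hsf hfd => Or.inr (hasReal ι hc ?_)
    rw [hsf]
    exact hle hcv
  · have hneg : ∀ w : S, τ c w = -w := by
      intro w
      by_contra hne
      apply hex
      refine ⟨w + τ c w, fun h0 => hne (eq_neg_of_add_eq_zero_right h0), ?_⟩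
      rw [map_add, ← Module.End.mul_apply, ← map_mul, hcc, map_one, add_comm]
      rfl
    obtain ⟨v₀, hv₀, P, hP, hPp⟩ := exists_vec_P hKn hKf τ hτ
    refine key v₀ hv₀ fun v hv hle hsf hfd => Or.inl ⟨isCM' hp2 ι hc hcc hneg hv hfd hsf, ?_⟩
    show ¬ p ∣ finrank ℚ (fixedField (stab τ v))
    rw [finrank_eq_fixingSubgroup_index, hsf]
    exact fun h1 => hPp (h1.trans (Subgroup.index_dvd_of_le (hP.trans hle)))

/-- **The reduction.** -/
theorem reduce (hp2 : p ≠ 2) (R : ℕ → IntermediateField ℚ Qb) (hR : ∀ m, IsLayer p m (R m))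
    (h : ∀ E : IntermediateField ℚ Qb, FiniteDimensional ℚ E → Special p E →
      Pool.Agent.Q60.MU.MuZero p R E) (F : IntermediateField ℚ Qb) (hF : FiniteDimensional ℚ F) :
    Pool.Agent.Q60.MU.MuZero p R F := by
  have hp : p.Prime := Fact.out
  have hRf : ∀ m, FiniteDimensional ℚ (R m) := fun m => layer_fd hp (hR m)
  have hRn : ∀ m, IsGalois ℚ (R m) := fun m => layer_galois hp (hR m)
  have hd : FinDec R := finDec hp hp2 hR
  have hUf : F.fixingSubgroup.FiniteIndex := ⟨index_ne_zero' F⟩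
  set K := F.fixingSubgroup.normalCore with hKdef
  have hKn : K.Normal := Subgroup.normalCore_normal _
  have hKo : IsOpen (K : Set Gal(Qb/ℚ)) :=
    isOpen_normalCore F.fixingSubgroup_isOpen (index_ne_zero' F)
  have hKf : K.index ≠ 0 := by
    have : K.FiniteIndex := F.fixingSubgroup.finiteIndex_normalCore
    exact Subgroup.FiniteIndex.index_ne_zero
  have hfix := fix_fixed hKo
  have hNd := finite_fixed hKo hKf
  have hFN : F ≤ fixedField K := (le_iff_le _ _).2 (Subgroup.normalCore_le _)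
  have hNn : IsGalois ℚ (fixedField K) :=
    (InfiniteGalois.normal_iff_isGalois (fixedField K)).1 (by rw [hfix]; exact hKn)
  refine field_detect p R hRf hRn hd (fixedField K) hNd hNn
    {E | E ≤ fixedField K ∧ Pool.Agent.Q60.MU.MuZero p R E} (fun E hE => hE.1) ?_ (fun E hE => hE.2)
    F hFN
  intro S _ _ _ τ hτ hs
  refine detect_special hp2 hNd hNn (τ := τ) hτ hs fun E hE hs => ⟨hE, h E ?_ hs⟩
  exact Submodule.finiteDimensional_of_le (S₁ := Subalgebra.toSubmodule E.toSubalgebra)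
      (S₂ := Subalgebra.toSubmodule (fixedField K).toSubalgebra) hE

end Pool.Agent.J4.H53.IW
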